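import Pool.Agent.R623.AF.Stm3

/-!
# AF-NRM: the norm of each of the three numbers of a solution is almost maximal
-/

set_option autoImplicit false

namespace Pool.Agent.R623.AF

open NumberField Filter

theorem nrm_prod_ge_one (K : Type) [Field K] [NumberField K] (s : K) (hs : s ≠ 0)
    (hi : IsIntegral ℤ s) : 1 ≤ ∏ σ : K →+* ℂ, ‖σ s‖ := by
  have h1 : ∏ σ : K →+* ℂ, σ s = algebraMap ℚ ℂ (Algebra.norm ℚ s) := by
    rw [Algebra.norm_eq_prod_embeddings ℚ ℂ s]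
    exact Fintype.prod_equiv (RingHom.equivRatAlgHom K ℂ) _ _
      (fun σ => by simp [RingHom.equivRatAlgHom_apply])
  rw [← norm_prod, h1]
  have h2 : IsIntegral ℤ (Algebra.norm ℚ s) := Algebra.isIntegral_norm ℚ hi
  obtain ⟨m, hm⟩ := IsIntegrallyClosed.isIntegral_iff.1 h2
  have h3 : Algebra.norm ℚ s ≠ 0 := Algebra.norm_ne_zero_iff.2 hs
  rw [← hm]
  have hm0 : m ≠ 0 := by
    rintro rfl
    apply h3
    rw [← hm]
    simp
  have h4 : (1 : ℤ) ≤ |m| := Int.one_le_abs hm0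
  have h5 : (1 : ℝ) ≤ |(m : ℝ)| := by exact_mod_cast h4
  simpa using h5

theorem nrm_big (d : ℕ) : ∃ B : ℕ, ∀ p : ℕ, B < p → 3 ≤ p ∧
    578 * 33 * d * Real.log p ≤ p ∧ 2 * (339264 * 1089 * (d : ℝ) ^ 3 * Real.log p ^ 2) ≤ p ∧
    2 * (d : ℝ) ≤ p := by
  have h1 : ∀ᶠ x : ℝ in atTop, 578 * 33 * d * Real.log x ≤ x := by
    have h := Real.isLittleO_log_id_atTop.def (c := 1 / (578 * 33 * (d : ℝ) + 1)) (by positivity)
    filter_upwards [h, eventually_ge_atTop 1] with x hx hx1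
    rw [Real.norm_eq_abs, Real.norm_eq_abs, abs_of_nonneg (Real.log_nonneg hx1), id,
      abs_of_nonneg (by linarith)] at hx
    have h2 : 0 ≤ Real.log x := Real.log_nonneg hx1
    rw [div_mul_eq_mul_div, one_mul, le_div_iff₀ (by positivity)] at hx
    nlinarith
  have h2 : ∀ᶠ x : ℝ in atTop, 2 * (339264 * 1089 * (d : ℝ) ^ 3 * Real.log x ^ 2) ≤ x := by
    have h := (Real.isLittleO_pow_log_id_atTop (n := 2)).def
      (c := 1 / (2 * (339264 * 1089 * (d : ℝ) ^ 3) + 1)) (by positivity)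
    filter_upwards [h, eventually_ge_atTop 1] with x hx hx1
    rw [Real.norm_eq_abs, Real.norm_eq_abs, abs_of_nonneg (by positivity), id,
      abs_of_nonneg (by linarith)] at hx
    have h2 : 0 ≤ Real.log x ^ 2 := by positivity
    rw [div_mul_eq_mul_div, one_mul, le_div_iff₀ (by positivity)] at hx
    nlinarith
  have h3 : ∀ᶠ x : ℝ in atTop, 2 * (d : ℝ) ≤ x := eventually_ge_atTop _
  have h4 : ∀ᶠ p : ℕ in atTop, 3 ≤ p ∧
      578 * 33 * d * Real.log p ≤ p ∧ 2 * (339264 * 1089 * (d : ℝ) ^ 3 * Real.log p ^ 2) ≤ p ∧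
      2 * (d : ℝ) ≤ p := by
    filter_upwards [eventually_ge_atTop 3, tendsto_natCast_atTop_atTop.eventually h1,
      tendsto_natCast_atTop_atTop.eventually h2, tendsto_natCast_atTop_atTop.eventually h3]
      with p a1 a2 a3 a4
    exact ⟨a1, a2, a3, a4⟩
  obtain ⟨B, hB⟩ := eventually_atTop.1 h4
  exact ⟨B, fun p hp => hB p hp.le⟩

theorem nrm_fin {T n e δ : ℝ} (hn : 0 ≤ n) (hT : n ≤ T) (he : 0 ≤ e) (he2 : e ≤ 1 / 2)
    (hδ : δ ≤ 1 / 2) (h : T - n < e * (T + 1) + δ) : T ≤ 2 + (1 + 2 * e) * n := by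
  have h1 : T * (1 - e) ≤ n + 1 := by nlinarith
  have h2 : T ≤ T * (1 - e) * (1 + 2 * e) := by
    have : 0 ≤ T := hn.trans hT
    have h3 : 1 ≤ (1 - e) * (1 + 2 * e) := by nlinarith
    nlinarith
  have h3 : T * (1 - e) * (1 + 2 * e) ≤ (n + 1) * (1 + 2 * e) :=
    mul_le_mul_of_nonneg_right h1 (by linarith)
  nlinarith

theorem nrm_place (hBK : S_BK2) {K : Type} [Field K] [NumberField K] {p L h : ℕ} {a b c : K}
    (hp : p.Prime) (h3 : 3 ≤ p) (ha : IsIntegral ℤ a) (hb : IsIntegral ℤ b) (ha0 : a ≠ 0)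
    (hb0 : b ≠ 0) (hc0 : c ≠ 0) (habc : a ^ p + b ^ p + c ^ p = 0) (hh : 1 ≤ h)
    (hL1 : 16 * Module.finrank ℚ K * Real.log p ≤ L) (hL2 : 16 * Module.finrank ℚ K ≤ L)
    (hL3 : 578 * L ≤ p)
    (hP : ∏ σ : K →+* ℂ, max ‖σ a‖ (max ‖σ b‖ ‖σ c‖) ≤ Real.exp h) (σ₀ : K →+* ℂ) :
    p * (Real.log ‖σ₀ a‖ - Real.log ‖σ₀ c‖) < 339264 * h * (L : ℝ) ^ 2 + 1 := by
  have e1 : a ^ p + b ^ p = -c ^ p := by linear_combination habc
  have h1 := hBK K a b p L h σ₀ hp h3 ha0 hb0 ha hb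
    (by rw [e1]; exact neg_ne_zero.2 (pow_ne_zero _ hc0)) hh hL1 hL2 hL3
    (le_trans (Finset.prod_le_prod (fun σ _ => le_max_of_le_left (norm_nonneg _))
      (fun σ _ => max_le_max le_rfl (le_max_left _ _))) hP)
  have hodd : Odd p := hp.odd_of_ne_two (by omega)
  have ha1 : σ₀ a ≠ 0 := (map_ne_zero σ₀).2 ha0
  have hc1 : σ₀ c ≠ 0 := (map_ne_zero σ₀).2 hc0
  have e2 : (-(σ₀ b) / σ₀ a) ^ p - 1 = (σ₀ c / σ₀ a) ^ p := by
    rw [div_pow, div_pow, hodd.neg_pow]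
    have e3 := congrArg σ₀ habc
    simp only [map_add, map_pow, map_zero] at e3
    rw [div_sub_one (pow_ne_zero _ ha1)]
    congr 1
    linear_combination -e3
  rw [e2, norm_pow, norm_div] at h1
  have na : 0 < ‖σ₀ a‖ := norm_pos_iff.2 ha1
  have nc : 0 < ‖σ₀ c‖ := norm_pos_iff.2 hc1
  rw [← Real.lt_log_iff_exp_lt (by positivity), Real.log_pow, Real.log_div nc.ne' na.ne'] at h1
  linarith

theorem NRM : S_BK2 → S_NRM := by
  intro hBK d
  obtain ⟨B, hB⟩ := nrm_big d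
  refine ⟨2 * (339264 * 1089 * (d : ℝ) ^ 3) + 1, B, by positivity, ?_⟩
  intro K _ _ hd p hp hBp a b c ha hb hc ha0 hb0 hc0 habc
  obtain ⟨h3, hb1, hb2, hb3⟩ := hB p hBp
  have hp0 : (0 : ℝ) < p := by
    have : 0 < p := by omega
    exact_mod_cast this
  have hd1 : 1 ≤ d := by
    rw [← hd]
    exact Module.finrank_pos
  have hd1' : (1 : ℝ) ≤ d := by exact_mod_cast hd1
  have hlog : 1 ≤ Real.log p := by
    rw [Real.le_log_iff_exp_le hp0]
    have h4 := Real.exp_one_lt_d9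
    have h5 : (3 : ℝ) ≤ p := by exact_mod_cast h3
    linarith
  have na : ∀ σ : K →+* ℂ, 0 < ‖σ a‖ := fun σ => norm_pos_iff.2 ((map_ne_zero σ).2 ha0)
  have nb : ∀ σ : K →+* ℂ, 0 < ‖σ b‖ := fun σ => norm_pos_iff.2 ((map_ne_zero σ).2 hb0)
  have nc : ∀ σ : K →+* ℂ, 0 < ‖σ c‖ := fun σ => norm_pos_iff.2 ((map_ne_zero σ).2 hc0)
  obtain ⟨M, hM⟩ : ∃ M : (K →+* ℂ) → ℝ, M = fun σ => max ‖σ a‖ (max ‖σ b‖ ‖σ c‖) := ⟨_, rfl⟩
  have hM0 : ∀ σ, 0 < M σ := fun σ => by
    rw [hM]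
    exact lt_of_lt_of_le (na σ) (le_max_left _ _)
  have hMc : ∀ σ, ‖σ c‖ ≤ M σ := fun σ => by
    rw [hM]
    exact (le_max_right _ _).trans (le_max_right _ _)
  obtain ⟨n, hn⟩ : ∃ n : ℝ, n = ∑ σ : K →+* ℂ, Real.log ‖σ c‖ := ⟨_, rfl⟩
  obtain ⟨T, hT⟩ : ∃ T : ℝ, T = ∑ σ : K →+* ℂ, Real.log (M σ) := ⟨_, rfl⟩
  have hN : ∏ σ : K →+* ℂ, ‖σ c‖ = Real.exp n := by
    rw [hn, Real.exp_sum]
    exact Finset.prod_congr rfl fun σ _ => (Real.exp_log (nc σ)).symm
  have hPT : ∏ σ : K →+* ℂ, M σ = Real.exp T := by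
    rw [hT, Real.exp_sum]
    exact Finset.prod_congr rfl fun σ _ => (Real.exp_log (hM0 σ)).symm
  have hn0 : 0 ≤ n := by
    have := nrm_prod_ge_one K c hc0 hc
    rw [hN] at this
    exact Real.one_le_exp_iff.1 this
  have hnT : n ≤ T := by
    rw [hn, hT]
    exact Finset.sum_le_sum fun σ _ => Real.log_le_log (nc σ) (hMc σ)
  have hT0 : 0 ≤ T := hn0.trans hnT
  obtain ⟨e, he⟩ : ∃ e : ℝ, e = 339264 * 1089 * (d : ℝ) ^ 3 * Real.log p ^ 2 / p := ⟨_, rfl⟩
  have he0 : 0 ≤ e := by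
    rw [he]
    positivity
  have he2 : e ≤ 1 / 2 := by
    rw [he, div_le_iff₀ hp0]
    linarith
  have hmain : T ≤ 2 + (1 + 2 * e) * n := by
    rcases hnT.eq_or_lt with hTn | hTn
    · rw [← hTn]
      nlinarith
    -- choice of the place
    have hdK : (Fintype.card (K →+* ℂ) : ℝ) = d := by
      rw [NumberField.Embeddings.card, hd]
    obtain ⟨σ₀, -, hσ⟩ : ∃ σ ∈ (Finset.univ : Finset (K →+* ℂ)),
        (T - n) / d ≤ Real.log (M σ) - Real.log ‖σ c‖ := by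
      apply Finset.exists_le_of_sum_le
      · have : 0 < Fintype.card (K →+* ℂ) := by
          rw [NumberField.Embeddings.card, hd]
          exact hd1
        exact Finset.card_pos.1 (by rwa [Finset.card_univ])
      · rw [Finset.sum_const, Finset.card_univ, nsmul_eq_mul, hdK, Finset.sum_sub_distrib,
          ← hn, ← hT, mul_div_cancel₀ _ (by linarith)]
    have hg : 0 < Real.log (M σ₀) - Real.log ‖σ₀ c‖ :=
      lt_of_lt_of_le (div_pos (by linarith) (by linarith)) hσ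
    -- parameters
    obtain ⟨L, hL⟩ : ∃ L : ℕ, L = ⌈16 * (d : ℝ) * Real.log p⌉₊ + 16 * d := ⟨_, rfl⟩
    obtain ⟨h, hh⟩ : ∃ h : ℕ, h = ⌊T⌋₊ + 1 := ⟨_, rfl⟩
    have hL1 : 16 * (d : ℝ) * Real.log p ≤ L := by
      rw [hL]
      push_cast
      have := Nat.le_ceil (16 * (d : ℝ) * Real.log p)
      linarith
    have hL2 : 16 * d ≤ L := by omega
    have hL4 : (L : ℝ) ≤ 33 * (d * Real.log p) := by
      rw [hL]
      push_cast
      have h5 := (Nat.ceil_lt_add_one (a := 16 * (d : ℝ) * Real.log p) (by positivity)).le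
      have h6 : (d : ℝ) ≤ d * Real.log p := le_mul_of_one_le_right (by linarith) hlog
      linarith
    have hL3 : 578 * L ≤ p := by
      have : (578 : ℝ) * L ≤ p := by linarith
      exact_mod_cast this
    have hh1 : 1 ≤ h := by omega
    have hh2 : (h : ℝ) ≤ T + 1 := by
      rw [hh]
      push_cast
      linarith [Nat.floor_le hT0]
    have hh3 : T ≤ h := by
      rw [hh]
      push_cast
      exact (Nat.lt_floor_add_one T).le
    have hPh : ∏ σ : K →+* ℂ, M σ ≤ Real.exp h := by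
      rw [hPT]
      exact Real.exp_le_exp.2 hh3
    rw [← hd] at hL1 hL2
    have hpl : p * (Real.log (M σ₀) - Real.log ‖σ₀ c‖) < 339264 * h * (L : ℝ) ^ 2 + 1 := by
      have hcase : M σ₀ = ‖σ₀ a‖ ∨ M σ₀ = ‖σ₀ b‖ := by
        have hlt : ‖σ₀ c‖ < M σ₀ := by
          by_contra hcon
          have := Real.log_le_log (hM0 σ₀) (not_lt.1 hcon)
          linarith
        rw [hM] at hlt ⊢
        dsimp only at hlt ⊢
        rcases le_total ‖σ₀ a‖ (max ‖σ₀ b‖ ‖σ₀ c‖) with h1 | h1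
        · rw [max_eq_right h1] at hlt ⊢
          rcases le_total ‖σ₀ b‖ ‖σ₀ c‖ with h2 | h2
          · rw [max_eq_right h2] at hlt
            exact absurd hlt (lt_irrefl _)
          · rw [max_eq_left h2]
            exact Or.inr rfl
        · rw [max_eq_left h1]
          exact Or.inl rfl
      rcases hcase with h1 | h1
      · rw [h1]
        apply nrm_place hBK hp h3 ha hb ha0 hb0 hc0 habc hh1 hL1 hL2 hL3 _ σ₀
        rw [hM] at hPh
        exact hPh
      · rw [h1]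
        apply nrm_place hBK hp h3 hb ha hb0 ha0 hc0 (by rw [← habc]; ring) hh1 hL1 hL2 hL3 _ σ₀
        refine le_trans (le_of_eq (Finset.prod_congr rfl fun σ _ => ?_)) hPh
        rw [hM]
        exact max_left_comm _ _ _
    -- conclusion
    have hq : T - n < e * (T + 1) + d / p := by
      have h5 : T - n ≤ d * (Real.log (M σ₀) - Real.log ‖σ₀ c‖) := by
        rw [div_le_iff₀ (by linarith)] at hσ
        linarith
      have h6 : (L : ℝ) ^ 2 ≤ (33 * (d * Real.log p)) ^ 2 :=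
        pow_le_pow_left₀ (Nat.cast_nonneg _) hL4 2
      have h7 : 339264 * (h : ℝ) * (L : ℝ) ^ 2 ≤
          339264 * (T + 1) * (33 * (d * Real.log p)) ^ 2 := by
        apply mul_le_mul _ h6 (by positivity) (by positivity)
        linarith
      have h8 : p * (T - n) < d * (339264 * (T + 1) * (33 * (d * Real.log p)) ^ 2 + 1) := by
        calc p * (T - n) ≤ p * (d * (Real.log (M σ₀) - Real.log ‖σ₀ c‖)) :=
              mul_le_mul_of_nonneg_left h5 hp0.le
          _ = d * (p * (Real.log (M σ₀) - Real.log ‖σ₀ c‖)) := by ring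
          _ < d * (339264 * h * (L : ℝ) ^ 2 + 1) :=
              mul_lt_mul_of_pos_left hpl (by linarith)
          _ ≤ _ := by
              apply mul_le_mul_of_nonneg_left _ (by linarith)
              linarith
      have h9 : e * (T + 1) + d / p =
          (d * (339264 * (T + 1) * (33 * (d * Real.log p)) ^ 2 + 1)) / p := by
        rw [he]
        field_simp
        ring
      rw [h9, lt_div_iff₀ hp0]
      linarith
    refine nrm_fin hn0 hnT he0 he2 ?_ hq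
    rw [div_le_iff₀ hp0]
    linarith
  have hfin : ∏ σ : K →+* ℂ, M σ ≤ Real.exp 2 * (∏ σ : K →+* ℂ, ‖σ c‖) ^
      (1 + (2 * (339264 * 1089 * (d : ℝ) ^ 3) + 1) * Real.log p ^ 2 / p) := by
    rw [hPT, hN, ← Real.exp_mul, ← Real.exp_add]
    apply Real.exp_le_exp.2
    have h5 : 2 * e ≤ (2 * (339264 * 1089 * (d : ℝ) ^ 3) + 1) * Real.log p ^ 2 / p := by
      rw [he, ← mul_div_assoc]
      apply div_le_div_of_nonneg_right _ hp0.le
      nlinarith [sq_nonneg (Real.log p)]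
    nlinarith
  rw [hM] at hfin
  exact hfin

end Pool.Agent.R623.AF
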